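import Pool.Agent.Helper76.DE.StN

/-!
# Project PRD (MP_77ff3d_nt): module Vd (no repetition)
-/

set_option autoImplicit false

noncomputable section

namespace Pool.Agent.Helper48.PRD

open Pool.Agent.Helper76.ND Pool.Agent.Helper76.DE Finset

theorem hVd (hPr : StPr) (hVhz : StVhz) : StVd := by
  obtain ⟨x1, hx1, H1⟩ := hPr
  obtain ⟨x2, hx2, H2⟩ := hVhz
  refine ⟨max (max x1 x2) (Real.exp (1600 ^ 3)), le_trans hx1 (le_trans (le_max_left _ _) (le_max_left _ _)), ?_⟩
  intro z x y N hx hyz hyN hNy hgd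
  have hx1' : x1 ≤ x := le_trans (le_trans (le_max_left _ _) (le_max_left _ _)) hx
  have hx2' : x2 ≤ x := le_trans (le_trans (le_max_right _ _) (le_max_left _ _)) hx
  have hx3' : Real.exp (1600 ^ 3) ≤ x := le_trans (le_max_right _ _) hx
  have hx0 : 0 < x := lt_of_lt_of_le (Real.exp_pos _) hx3'
  obtain ⟨hz1, hYR⟩ := hyz
  have hz0 : 0 < z := by linarith
  obtain ⟨p1, p2, -, -, -, -, p7, -, p9, p10, -, -, -, -⟩ := H1 x (y / z) hx1' hYR
  have hyz0 : 0 < y / z := by linarith
  have hy0 : 0 < y := by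
    have := mul_pos hyz0 hz0
    rwa [div_mul_cancel₀ _ hz0.ne'] at this
  have hlog : Real.log (y / z) = Real.log y - Real.log z := Real.log_div hy0.ne' hz0.ne'
  set L := Real.log x with hL
  have hL3 : (1600 : ℝ) ^ 3 ≤ L := by
    rw [hL, Real.le_log_iff_exp_le hx0]
    exact hx3'
  set D := L ^ (2 / 3 : ℝ) with hD
  have hLpos : 0 < L := by linarith
  have hc : (1600 : ℝ) ≤ L ^ (1 / 3 : ℝ) := by
    have h1 : ((1600 : ℝ) ^ 3) ^ (1 / 3 : ℝ) ≤ L ^ (1 / 3 : ℝ) :=
      Real.rpow_le_rpow (by norm_num) hL3 (by norm_num)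
    have h2 : ((1600 : ℝ) ^ 3) ^ (1 / 3 : ℝ) = 1600 := by
      rw [← Real.rpow_natCast, ← Real.rpow_mul (by norm_num)]
      norm_num
    linarith
  have hDL : D * L ^ (1 / 3 : ℝ) = L := by
    rw [hD, ← Real.rpow_add hLpos]
    norm_num
  have hD1 : 1 ≤ D := Real.one_le_rpow (by linarith) (by norm_num)
  have hDL2 : 1600 * D ≤ L := by nlinarith
  have key : ∀ t t' : ℕ, t < t' → t' ≤ tz z x y → S^[t] N = S^[t'] N →
      z * x ^ (102 / 100 : ℝ) ≤ (S^[t] N : ℕ) → False := by
    intro t t' htt ht' hS hbig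
    set T := tz z x y with hT
    have hTT : T = t1 x (y / z) := rfl
    obtain ⟨p, rfl⟩ := Nat.exists_eq_add_of_lt htt
    set q := p + 1 with hq
    have hqpos : 0 < q := Nat.succ_pos _
    have hper : ∀ i : ℕ, S^[t + i * q] N = S^[t] N := by
      intro i
      induction i with
      | zero => simp
      | succ i ih =>
        have e1 : t + (i + 1) * q = i * q + (t + q) := by ring
        have e2 : t + i * q = i * q + t := by ring
        rw [e1, Function.iterate_add_apply]
        rw [e2, Function.iterate_add_apply] at ih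
        have e3 : S^[t + q] N = S^[t] N := by
          rw [hS]
          rfl
        rw [e3, ih]
    set i := (T - t) / q with hi
    have h1 : i * q ≤ T - t := Nat.div_mul_le_self _ _
    have h2 : T - t < (i + 1) * q := by
      have := Nat.lt_div_mul_add (a := T - t) hqpos
      rw [← hi] at this
      nlinarith
    have hle : t + q ≤ T := by
      have : t + p + 1 ≤ T := ht'
      omega
    have hi1 : 1 ≤ i := by
      rw [hi, Nat.one_le_div_iff hqpos]
      omega
    have h3 : t + i * q ≤ T := by omega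
    have a1 := abs_le.1 (H2 z x y N hx2' ⟨hz1, hYR⟩ hyN hNy hgd t (by omega))
    have a2 := abs_le.1 (H2 z x y N hx2' ⟨hz1, hYR⟩ hyN hNy hgd (t + i * q) h3)
    rw [hper i] at a2
    rw [← hL, ← hD] at a1 a2
    have hrho : 0 < rho := by linarith
    have b1 : rho * (i * q : ℕ) ≤ 6 * D := by
      have := a1.1
      have := a2.2
      push_cast at *
      linarith [a1.1, a1.2, a2.1, a2.2]
    have b2 : (q : ℝ) ≤ (i * q : ℕ) := by
      exact_mod_cast Nat.le_mul_of_pos_left q hi1
    have b3 : (T : ℝ) ≤ t + (i * q : ℕ) + q := by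
      have : T ≤ t + i * q + q := by
        have e : (i + 1) * q = i * q + q := by ring
        omega
      exact_mod_cast this
    have b4 : rho * T ≤ rho * t + 12 * D := by
      have c1 : rho * T ≤ rho * (t + (i * q : ℕ) + q) := mul_le_mul_of_nonneg_left b3 hrho.le
      have c2 : rho * q ≤ rho * (i * q : ℕ) := mul_le_mul_of_nonneg_left b2 hrho.le
      linarith
    have hV : Real.log z + 102 / 100 * L ≤ Real.log (S^[t] N : ℕ) := by
      have h4 := Real.log_le_log (mul_pos hz0 (Real.rpow_pos_of_pos hx0 _)) hbig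
      rw [Real.log_mul hz0.ne' (Real.rpow_pos_of_pos hx0 _).ne', Real.log_rpow hx0] at h4
      exact h4
    rw [hlog, ← hTT] at p7
    linarith [a1.2]
  intro t ht t' ht' hS hbig
  rcases lt_trichotomy t t' with h | h | h
  · exact (key t t' h ht' hS hbig).elim
  · exact h
  · exact (key t' t h ht hS.symm (by rw [← hS]; exact hbig)).elim

end Pool.Agent.Helper48.PRD
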